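import Mathlib
import Pool.Agent.H994.Butterfly.Defs
import Pool.Agent.H994.Butterfly.Proof

namespace Pool.Agent.Results.MP_93fab9_mp.ButterflyEigenvalue

open Pool.Agent.H994.Butterfly

/-- **The random unitary butterfly is not an `O(1/n)`-approximate two-design on `Λ²`.**
For every `K ≥ 2`, with `n = 2^K`, the two-copy twirl `Φ_n` has an eigenvalue `z ≠ 1` with
`|z| ≥ ((3/4)^K - (1/2)^K) / (K + 2)`, which is much larger than `C/n`; the property of Q1 fails. -/
theorem result : (∀ K : ℕ, 2 ≤ K →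
    ∃ z : ℂ, z ≠ 1 ∧ IsEigenvalue (Phi K) z ∧ ((3/4 : ℝ)^K - (1/2)^K) / (K + 2) ≤ ‖z‖) ∧
    ¬ DesignProperty := main

end Pool.Agent.Results.MP_93fab9_mp.ButterflyEigenvalue
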